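import Pool.Agent.H630AC.Defs

open scoped Classical
open Finset

namespace H630AC

variable {k : ℕ} {W : Type}

theorem a3_ex {h : Fin k → Fin k → Fin k → W} (hh : Pr3 h) (he : EX h) :
    ∃ kap : Fin k → W, (∀ a x y z, h x y z = kap a → x = a) ∧
      ∀ a, ∃ b c1 c2, c1 ≠ c2 ∧ h a b c1 = kap a ∧ h a b c2 = kap a := by
  unfold EX at he
  choose b b' c1 c2 c3 c4 hb h12 h34 e1 e2 e3 using he
  refine ⟨fun a => h a (b a) (c1 a), ?_, ?_⟩
  · intro a x y z hx
    by_contra hxa
    by_cases hy : y = b a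
    · have hy' : y ≠ b' a := fun e => hb a (hy.symm.trans e)
      by_cases hz : z = c3 a
      · have hz' : z ≠ c4 a := fun e => h34 a (hz.symm.trans e)
        exact hh x a y (b' a) z (c4 a) hxa hy' hz' (hx.trans (e3 a))
      · exact hh x a y (b' a) z (c3 a) hxa hy' hz (hx.trans (e2 a))
    · by_cases hz : z = c1 a
      · have hz' : z ≠ c2 a := fun e => h12 a (hz.symm.trans e)
        exact hh x a y (b a) z (c2 a) hxa hy hz' (hx.trans (e1 a))
      · exact hh x a y (b a) z (c1 a) hxa hy hz hx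
  · intro a
    exact ⟨b a, c1 a, c2 a, h12 a, rfl, (e1 a).symm⟩

theorem a3_inj {h : Fin k → Fin k → Fin k → W} {kap : Fin k → W}
    (h1 : ∀ a x y z, h x y z = kap a → x = a)
    (h2 : ∀ a, ∃ b c1 c2, c1 ≠ c2 ∧ h a b c1 = kap a ∧ h a b c2 = kap a) :
    Function.Injective kap := by
  intro a a' haa
  obtain ⟨b, c1, c2, -, e, -⟩ := h2 a
  exact h1 a' a b c1 (e.trans haa)

theorem a3_two [Fintype W] (hW : Fintype.card W + 2 ≤ 2 * k)
    {h : Fin k → Fin k → Fin k → W} (hh : Pr3 h) (he : EX h) (lam : Fin k → W)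
    (hl : Function.Injective lam)
    (h2 : ∀ b, ∃ x x' y z y' z', x ≠ x' ∧ h x y z = lam b ∧ h x' y' z' = lam b) : False := by
  obtain ⟨kap, k1, k2⟩ := a3_ex hh he
  have hk := a3_inj k1 k2
  have hdis : ∀ a b, kap a ≠ lam b := by
    intro a b hab
    obtain ⟨x, x', y, z, y', z', hx, e1, e2⟩ := h2 b
    have s1 := k1 a x y z (e1.trans hab.symm)
    have s2 := k1 a x' y' z' (e2.trans hab.symm)
    exact hx (s1.trans s2.symm)
  have hinj : Function.Injective (Sum.elim kap lam) := by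
    intro s t hst
    rcases s with a | b <;> rcases t with a' | b'
    · exact congrArg Sum.inl (hk hst)
    · exact (hdis a b' hst).elim
    · exact (hdis a' b hst.symm).elim
    · exact congrArg Sum.inr (hl hst)
  have hc := Fintype.card_le_of_injective _ hinj
  rw [Fintype.card_sum, Fintype.card_fin] at hc
  omega

theorem a3_noT2 [Fintype W] (hW : Fintype.card W + 2 ≤ 2 * k)
    (h : Fin k → Fin k → Fin k → W) (hh : Pr3 h) (he : EX h) :
    ¬ TX (fun y z => h z y z) := by
  intro ht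
  have ht' : ∀ b, ∃ z z', z ≠ z' ∧ h z b z = h z' b z' := ht
  choose z z' hz e using ht'
  apply a3_two hW hh he (fun b => h (z b) b (z b))
  · intro b b2 hbb
    by_contra hne
    have hbb' : h (z b) b (z b) = h (z b2) b2 (z b2) := hbb
    by_cases hw : z b2 = z b
    · have hw' : z' b ≠ z b2 := fun e' => hz b (hw.symm.trans e'.symm)
      exact hh (z' b) (z b2) b b2 (z' b) (z b2) hw' hne hw' ((e b).symm.trans hbb')
    · have hw' : z b ≠ z b2 := fun e' => hw e'.symm
      exact hh (z b) (z b2) b b2 (z b) (z b2) hw' hne hw' hbb'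
  · intro b
    exact ⟨z b, z' b, b, z b, b, z' b, hz b, rfl, (e b).symm⟩

theorem step3_of
    (types : ∀ {k : ℕ} {W : Type} [Fintype W], Fintype.card W + 2 ≤ 2 * k →
      ∀ g : Fin k → Fin k → W, Pr2 g → (TX g ∧ ¬ TY g) ∨ (TY g ∧ ¬ TX g))
    (cover : ∀ {k : ℕ} {W : Type} [Fintype W], Fintype.card W + 2 ≤ 2 * k →
      ∀ h : Fin k → Fin k → Fin k → W, Pr3 h → (∀ a b, ∃ c c', c ≠ c' ∧ h a b c = h a b c') →
        EX h ∨ EX (fun y x z => h x y z))
    (lines : ∀ {k : ℕ} {W : Type} [Fintype W], 3 ≤ k → Fintype.card W + 2 ≤ 2 * k →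
      ∀ h : Fin k → Fin k → Fin k → W, Pr3 h → TX (fun x z => h x x z) →
        ∀ a b, ∃ c c', c ≠ c' ∧ h a b c = h a b c')
    [Fintype W] (hk : 3 ≤ k) (hW : Fintype.card W + 2 ≤ 2 * k)
    (h : Fin k → Fin k → Fin k → W) (hh : Pr3 h) (he : EX h) :
    TX (fun x z => h x z z) ∧ ¬ TX (fun y z => h z y z) := by
  refine ⟨?_, a3_noT2 hW h hh he⟩
  have hg : Pr2 (fun x z => h x z z) := by
    intro a a' b b' haa hbb
    exact hh a a' b b' b b' haa hbb hbb
  rcases types hW _ hg with h1 | h1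
  · exact h1.1
  · exfalso
    have hy : ∀ b, ∃ a a', a ≠ a' ∧ h a b b = h a' b b := h1.1
    have hp' : Pr3 (fun y z x => h x y z) := by
      intro a a' b b' c c' haa hbb hcc
      exact hh c c' a a' b b' hcc haa hbb
    have ht' : TX (fun x z => (fun y z x => h x y z) x x z) := by
      intro b
      exact hy b
    have hl := lines hk hW (fun y z x => h x y z) hp' ht'
    rcases cover hW (fun y z x => h x y z) hp' hl with hE | hE
    · obtain ⟨lam, l1, l2⟩ := a3_ex hp' hE
      apply a3_two hW hh he lam (a3_inj l1 l2)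
      intro b
      obtain ⟨b', c1, c2, hc, e1, e2⟩ := l2 b
      exact ⟨c1, c2, b, b', b, b', hc, e1, e2⟩
    · have hp2 : Pr3 (fun (y x z : Fin k) => (fun y z x => h x y z) x y z) := by
        intro a a' b b' c c' haa hbb hcc
        exact hh c c' b b' a a' hcc hbb haa
      obtain ⟨lam, l1, l2⟩ := a3_ex hp2 hE
      apply a3_two hW hh he lam (a3_inj l1 l2)
      intro b
      obtain ⟨b', c1, c2, hc, e1, e2⟩ := l2 b
      exact ⟨c1, c2, b', b, b', b, hc, e1, e2⟩

end H630AC
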