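import Pool.Agent.H630AC.Defs

open scoped Classical
open Finset

namespace H630AC

variable {k : ℕ} {W : Type}

/-- the binary minor of `f` given by `A` -/
def a5_G (f : (Fin 8 → Fin k) → W) (A : Fin 8 → Bool) (x y : Fin k) : W :=
  f fun s => if A s = true then y else x

/-- the type of the minor -/
noncomputable def a5_t (f : (Fin 8 → Fin k) → W) (A : Fin 8 → Bool) : Bool :=
  decide (TY (a5_G f A))

/-- bits as elements of the field with two elements -/
def a5_p (b : Bool) : ZMod 2 := if b = true then 1 else 0

theorem a5_p_xor (a b : Bool) : a5_p (xor a b) = a5_p a + a5_p b := by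
  cases a <;> cases b <;> decide

theorem a5_p_inj (a b : Bool) (h : a5_p a = a5_p b) : a = b := by
  cases a <;> cases b <;> first | rfl | exact absurd h (by decide)

theorem a5_false (hk : 3 ≤ k) (f : (Fin 8 → Fin k) → W)
    (hf : ∀ p q : Fin 8 → Fin k, (∀ s, p s ≠ q s) → f p ≠ f q) :
    a5_t f (fun _ => false) = false := by
  unfold a5_t
  rw [decide_eq_false_iff_not]
  intro h
  obtain ⟨a, a', h1, h2⟩ := h ⟨0, by omega⟩
  refine hf _ _ (fun s => ?_) h2
  simpa using h1

theorem a5_true (hk : 3 ≤ k) (f : (Fin 8 → Fin k) → W) :
    a5_t f (fun _ => true) = true := by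
  unfold a5_t
  rw [decide_eq_true_iff]
  intro b
  refine ⟨⟨0, by omega⟩, ⟨1, by omega⟩, ?_, ?_⟩
  · intro h
    have := congrArg Fin.val h
    simp at this
  · simp [a5_G]

theorem a5_pr2 (f : (Fin 8 → Fin k) → W)
    (hf : ∀ p q : Fin 8 → Fin k, (∀ s, p s ≠ q s) → f p ≠ f q) (A : Fin 8 → Bool) :
    Pr2 (a5_G f A) := by
  intro a a' b b' ha hb
  refine hf _ _ (fun s => ?_)
  cases A s
  · simpa using ha
  · simpa using hb

theorem a5_or
    (types : ∀ {k : ℕ} {W : Type} [Fintype W], Fintype.card W + 2 ≤ 2 * k →
      ∀ g : Fin k → Fin k → W, Pr2 g → (TX g ∧ ¬ TY g) ∨ (TY g ∧ ¬ TX g))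
    (parity3 : ∀ {k : ℕ} {W : Type} [Fintype W], 3 ≤ k → Fintype.card W + 2 ≤ 2 * k →
      ∀ h : Fin k → Fin k → Fin k → W, Pr3 h →
        xor (xor (decide (TX (fun x z => h x z z))) (decide (TX (fun y z => h z y z))))
          (decide (TX (fun z x => h x x z))) = true)
    [Fintype W] (hk : 3 ≤ k) (hW : Fintype.card W + 2 ≤ 2 * k)
    (f : (Fin 8 → Fin k) → W) (hf : ∀ p q : Fin 8 → Fin k, (∀ s, p s ≠ q s) → f p ≠ f q)
    (A B : Fin 8 → Bool) (hAB : ∀ s, ¬ (A s = true ∧ B s = true)) :
    a5_t f (fun s => A s || B s) = xor (a5_t f A) (a5_t f B) := by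
  have h0 : Pr3 (fun x y z : Fin k =>
      f fun s => if A s = true then x else if B s = true then y else z) := by
    intro a a' b b' c c' ha hb hc
    refine hf _ _ (fun s => ?_)
    cases A s
    · cases B s
      · simpa using hc
      · simpa using hb
    · simpa using ha
  have h1 := parity3 hk hW _ h0
  have e1 : (TX (fun x z : Fin k => f fun s => if A s = true then x else
      if B s = true then z else z)) = TY (a5_G f A) := by
    have : (fun x z : Fin k => f fun s => if A s = true then x else
        if B s = true then z else z) = fun x z => a5_G f A z x := by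
      funext x z
      unfold a5_G
      congr 1
      funext s
      cases A s <;> simp
    rw [this]
    rfl
  have e2 : (TX (fun y z : Fin k => f fun s => if A s = true then z else
      if B s = true then y else z)) = TY (a5_G f B) := by
    have : (fun y z : Fin k => f fun s => if A s = true then z else
        if B s = true then y else z) = fun y z => a5_G f B z y := by
      funext y z
      unfold a5_G
      congr 1
      funext s
      have h3 := hAB s
      revert h3
      cases A s <;> cases B s <;> simp
    rw [this]
    rfl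
  have e3 : (fun z x : Fin k => f fun s => if A s = true then x else
        if B s = true then x else z) = a5_G f (fun s => A s || B s) := by
    funext z x
    unfold a5_G
    congr 1
    funext s
    show (if A s = true then x else if B s = true then x else z) =
      if (A s || B s) = true then x else z
    cases A s <;> cases B s <;> simp
  have h2 : decide (TX (a5_G f (fun s => A s || B s))) = !a5_t f (fun s => A s || B s) := by
    unfold a5_t
    rcases types hW _ (a5_pr2 f hf (fun s => A s || B s)) with ⟨h3, h4⟩ | ⟨h3, h4⟩
    · rw [decide_eq_true h3, decide_eq_false h4]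
      rfl
    · rw [decide_eq_false h4, decide_eq_true h3]
      rfl
  have h3 : xor (xor (a5_t f A) (a5_t f B)) (!a5_t f (fun s => A s || B s)) = true := by
    rw [← h2, ← e3]
    have e1' := congrArg (fun P : Prop => decide P) e1
    have e2' := congrArg (fun P : Prop => decide P) e2
    have e1'' : decide (TX (fun x z : Fin k => f fun s => if A s = true then x else
      if B s = true then z else z)) = a5_t f A := e1'
    have e2'' : decide (TX (fun y z : Fin k => f fun s => if A s = true then z else
      if B s = true then y else z)) = a5_t f B := e2'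
    rw [← e1'', ← e2'']
    exact h1
  revert h3
  cases a5_t f A <;> cases a5_t f B <;> cases a5_t f (fun s => A s || B s) <;> simp

theorem add8_of
    (types : ∀ {k : ℕ} {W : Type} [Fintype W], Fintype.card W + 2 ≤ 2 * k →
      ∀ g : Fin k → Fin k → W, Pr2 g → (TX g ∧ ¬ TY g) ∨ (TY g ∧ ¬ TX g))
    (parity3 : ∀ {k : ℕ} {W : Type} [Fintype W], 3 ≤ k → Fintype.card W + 2 ≤ 2 * k →
      ∀ h : Fin k → Fin k → Fin k → W, Pr3 h →
        xor (xor (decide (TX (fun x z => h x z z))) (decide (TX (fun y z => h z y z))))
          (decide (TX (fun z x => h x x z))) = true)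
    [Fintype W] (hk : 3 ≤ k) (hW : Fintype.card W + 2 ≤ 2 * k)
    (f : (Fin 8 → Fin k) → W) (hf : ∀ p q : Fin 8 → Fin k, (∀ s, p s ≠ q s) → f p ≠ f q)
    (A : Fin 4 → Fin 8 → Bool) (β : Bool)
    (hA : ∀ s, xor (xor (A 0 s) (A 1 s)) (xor (A 2 s) (A 3 s)) = β) :
    xor (xor (decide (TY (fun x y => f fun s => if A 0 s = true then y else x)))
        (decide (TY (fun x y => f fun s => if A 1 s = true then y else x))))
      (xor (decide (TY (fun x y => f fun s => if A 2 s = true then y else x)))
        (decide (TY (fun x y => f fun s => if A 3 s = true then y else x)))) = β := by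
  have hor := a5_or types parity3 hk hW f hf
  set u : Fin 8 → Bool := fun r => a5_t f (fun s => decide (s = r)) with hu
  have hS : ∀ S : Finset (Fin 8), a5_p (a5_t f (fun s => decide (s ∈ S))) =
      ∑ s ∈ S, a5_p (u s) := by
    intro S
    induction S using Finset.induction_on with
    | empty =>
      have e : (fun s : Fin 8 => decide (s ∈ (∅ : Finset (Fin 8)))) = fun _ => false := by
        funext s
        simp
      rw [e, a5_false hk f hf, Finset.sum_empty]
      rfl
    | insert a S ha ih =>
      have e : (fun s : Fin 8 => decide (s ∈ insert a S)) =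
          fun s => (decide (s = a) || decide (s ∈ S)) := by
        funext s
        simp [Finset.mem_insert]
      have h1 := hor (fun s => decide (s = a)) (fun s => decide (s ∈ S)) (by
        rintro s ⟨h2, h3⟩
        have h2' : s = a := by simpa using h2
        have h3' : s ∈ S := by simpa using h3
        exact ha (h2' ▸ h3'))
      rw [e, h1, a5_p_xor, ih, Finset.sum_insert ha]
  have hT : ∀ B : Fin 8 → Bool, a5_p (a5_t f B) = ∑ s, a5_p (B s) * a5_p (u s) := by
    intro B
    have e : B = fun s => decide (s ∈ (univ : Finset (Fin 8)).filter (fun s => B s = true)) := by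
      funext s
      simp
    have h1 := hS ((univ : Finset (Fin 8)).filter (fun s => B s = true))
    rw [← e] at h1
    rw [h1, Finset.sum_filter]
    refine Finset.sum_congr rfl (fun s _ => ?_)
    cases B s
    · simp [a5_p]
    · simp [a5_p]
  have h1 : ∑ s, a5_p (u s) = 1 := by
    have h2 := hT (fun _ => true)
    rw [a5_true hk f] at h2
    have h3 : a5_p true = 1 := rfl
    rw [h3] at h2
    rw [h2]
    exact Finset.sum_congr rfl (fun s _ => (one_mul _).symm)
  apply a5_p_inj
  have e0 : xor (xor (decide (TY (fun x y => f fun s => if A 0 s = true then y else x)))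
        (decide (TY (fun x y => f fun s => if A 1 s = true then y else x))))
      (xor (decide (TY (fun x y => f fun s => if A 2 s = true then y else x)))
        (decide (TY (fun x y => f fun s => if A 3 s = true then y else x)))) =
      xor (xor (a5_t f (A 0)) (a5_t f (A 1))) (xor (a5_t f (A 2)) (a5_t f (A 3))) := rfl
  rw [e0, a5_p_xor, a5_p_xor, a5_p_xor, hT, hT, hT, hT, ← Finset.sum_add_distrib,
    ← Finset.sum_add_distrib, ← Finset.sum_add_distrib]
  have h4 : ∀ s, a5_p (A 0 s) * a5_p (u s) + a5_p (A 1 s) * a5_p (u s) +
      (a5_p (A 2 s) * a5_p (u s) + a5_p (A 3 s) * a5_p (u s)) = a5_p β * a5_p (u s) := by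
    intro s
    rw [← hA s, a5_p_xor, a5_p_xor, a5_p_xor]
    ring
  rw [Finset.sum_congr rfl (fun s _ => h4 s), ← Finset.mul_sum, h1, mul_one]

end H630AC
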