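import Mathlib

/-!
# Colourings of powers of complete graphs with few colours: internal definitions (helper630)
-/

open scoped Classical
open Finset

namespace H630AC

variable {k : ℕ} {W : Type}

/-- proper colouring of the square of the complete graph -/
def Pr2 (g : Fin k → Fin k → W) : Prop := ∀ a a' b b', a ≠ a' → b ≠ b' → g a b ≠ g a' b'

/-- proper colouring of the cube of the complete graph -/
def Pr3 (h : Fin k → Fin k → Fin k → W) : Prop :=
  ∀ a a' b b' c c', a ≠ a' → b ≠ b' → c ≠ c' → h a b c ≠ h a' b' c'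

/-- every row contains a colour twice -/
def TX (g : Fin k → Fin k → W) : Prop := ∀ a, ∃ b b', b ≠ b' ∧ g a b = g a b'

/-- every column contains a colour twice -/
def TY (g : Fin k → Fin k → W) : Prop := ∀ b, ∃ a a', a ≠ a' ∧ g a b = g a' b

/-- every plane `x = a` contains a colour twice on each of two lines `(a,b,*)`, `(a,b',*)` -/
def EX (h : Fin k → Fin k → Fin k → W) : Prop :=
  ∀ a, ∃ b b' c1 c2 c3 c4, b ≠ b' ∧ c1 ≠ c2 ∧ c3 ≠ c4 ∧ h a b c1 = h a b c2 ∧
    h a b c1 = h a b' c3 ∧ h a b c1 = h a b' c4

end H630AC
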